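import Pool.Agent.H.MP_93ccfe_al.Wall

namespace Pool.Agent.Results.MP_93ccfe_al.No

/-- A minimal nontrivial isometric action of `G` on a real tree (geodesic, 0-hyperbolic metric
space) with trivial arc stabilisers. -/
structure Act (G : Type) [Group G] where
  X : Type
  [met : MetricSpace X]
  [act : MulAction G X]
  ne : Nonempty X
  geod : ∀ x y : X, ∃ f : ℝ → X, f 0 = x ∧ f (dist x y) = y ∧
    ∀ s ∈ Set.Icc 0 (dist x y), ∀ t ∈ Set.Icc 0 (dist x y), dist (f s) (f t) = |s - t|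
  four : ∀ x y z w : X, dist x y + dist z w ≤ max (dist x z + dist y w) (dist x w + dist y z)
  iso : ∀ (g : G) (x y : X), dist (g • x) (g • y) = dist x y
  minimal : ∀ Y : Set X, Y.Nonempty → (∀ (g : G), ∀ y ∈ Y, g • y ∈ Y) →
    (∀ x ∈ Y, ∀ y ∈ Y, ∀ z, dist x z + dist z y = dist x y → z ∈ Y) → Y = Set.univ
  nontriv : ∀ x : X, ∃ g : G, g • x ≠ x
  arc : ∀ (g : G) (x y : X), x ≠ y → g • x = x → g • y = y → g = 1

/-- translation length -/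
noncomputable def Act.tl {G : Type} [Group G] (T : Act G) (g : G) : ℝ :=
  letI := T.met
  letI := T.act
  ⨅ x : T.X, dist x (g • x)

open Pool.Agent.H.MP_93ccfe_al in
theorem mkAct {G : Type} [Group G] [IsMulTorsionFree G] (T : TD G) {a c : G} (ha : a ≠ 1)
    (h0 : T.D 1 a = 0) (hc : T.D 1 c ≠ 0) :
    ∃ A : Act G, ∀ g, A.tl g = max 0 (T.D 1 (g * g) - T.D 1 g) :=
  ⟨{ X := X T
     ne := ⟨V T 1⟩
     geod := X_geod
     four := X_four
     iso := X_iso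
     minimal := X_min ha h0
     nontriv := X_nontriv ha h0 hc
     arc := X_arc }, fun g => X_tl g⟩

open Pool.Agent.H.MP_93ccfe_al in
theorem result (N : ℕ) (hN : 2 ≤ N) :
    ∃ T : Act (FreeGroup (Fin N)), ∀ S : Finset (FreeGroup (Fin N)),
      ∃ T' : Act (FreeGroup (Fin N)), (∀ g ∈ S, T'.tl g = T.tl g) ∧ ∃ g, T'.tl g ≠ T.tl g := by
  let i₀ : Fin N := ⟨0, by omega⟩
  let i₁ : Fin N := ⟨1, by omega⟩
  have hi : i₁ ≠ i₀ := by simp [i₀, i₁]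
  have ha : (FreeGroup.of i₁ : FreeGroup (Fin N)) ≠ 1 := FreeGroup.of_ne_one i₁
  obtain ⟨T, hT⟩ := mkAct (T0 i₀) (c := dm i₀ i₁ 0) ha (by rw [T0_D, sep_a i₀ hi]; simp)
    (by rw [T0_D, sep_d i₀ hi]; simp)
  refine ⟨T, fun S => ?_⟩
  obtain ⟨m, hm⟩ := agree i₀ hi ((S : Set (FreeGroup (Fin N))) ∪ (fun g => g * g) '' S)
    (S.finite_toSet.union (S.finite_toSet.image _))
  obtain ⟨T', hT'⟩ := mkAct (T1 i₀ hi m) (c := dm i₀ i₁ m) ha
    (by rw [T1_D, sep'_a i₀ hi]; simp) (by rw [T1_D, sep'_d i₀ hi]; simp)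
  refine ⟨T', fun g hg => ?_, dm i₀ i₁ m, ?_⟩
  · rw [hT, hT', hm g (Or.inl hg), hm (g * g) (Or.inr ⟨g, hg, rfl⟩)]
  · rw [hT, hT', T0_D, T0_D, T1_D, T1_D, sep_d i₀ hi, sep_dd i₀ hi, sep'_d i₀ hi]
    have h : ((sep (chi' i₀ i₁ m) 1 (dm i₀ i₁ m * dm i₀ i₁ m)).ncard : ℝ) ≤ 2 := by
      exact_mod_cast sep'_dd i₀ hi m
    rw [max_eq_left (by push_cast; linarith)]
    norm_num

end Pool.Agent.Results.MP_93ccfe_al.No
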